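import Pool.Agent.J4H44.PM.A4
import Pool.Agent.Y143.WeilNum

/-!
# The weight operator of the geometric Frobenius element (adapted from `Pool.Agent.N184.HK.W6`)
-/

set_option autoImplicit false

namespace Pool.Agent.J4H44.PM

open Module Module.End Polynomial Pool.Agent.N184.HK
open Pool.Agent.Y143 (IsWeilNumber IsMWPure IsMonodromyFiltration)
open scoped Classical

section gen

variable {Ω : Type} [Field Ω]

lemma adE_twist {V : Type} [AddCommGroup V] [Module Ω V] (φ : V ≃ₗ[Ω] V) {N : Module.End Ω V}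
    {q : Ω} (hq : q ≠ 0) (h : ∀ x, N (en φ x) = q • en φ (N x)) : adE φ N = q⁻¹ • N := by
  ext x
  have h1 : adE φ N x = φ (N (φ.symm x)) := by simp [adE, LinearEquiv.conj_apply]
  have h2 := h (φ.symm x)
  have h3 : en φ (φ.symm x) = x := φ.apply_symm_apply x
  rw [h3] at h2
  rw [h1, LinearMap.smul_apply, h2, smul_smul, inv_mul_cancel₀ hq, one_smul]
  rfl

lemma adE_eq_iff {V : Type} [AddCommGroup V] [Module Ω V] (φ : V ≃ₗ[Ω] V) (z : Module.End Ω V) :
    adE φ z = z ↔ Commute (en φ) z := by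
  constructor
  · intro h
    change en φ * z = z * en φ
    ext y
    have := congrArg (fun f : Module.End Ω V => f (φ y)) h
    simp only [adE_apply] at this
    exact this
  · intro h
    ext y
    have h1 := congrArg (fun f : Module.End Ω V => f (φ.symm y)) h.eq
    have h2 : adE φ z y = φ (z (φ.symm y)) := by simp [adE, LinearEquiv.conj_apply]
    rw [h2]
    change φ (z (φ.symm y)) = z (φ (φ.symm y)) at h1
    rw [h1, LinearEquiv.apply_symm_apply]

end gen

section orbit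

variable {Ω : Type} [Field Ω] [CharZero Ω] [TopologicalSpace Ω] [IsTopologicalRing Ω] [T2Space Ω]
  (E : HKFamily Ω)

/-- The orbit of an idempotent which commutes with its conjugates is finite. -/
lemma orbit_fin {i : ℕ} {z : Module.End Ω (E.X.H i)} (hzz : z * z = z)
    (hz : ∀ σ : E.Γ, Commute z (adE ((E.F σ).φ i) z)) :
    ∃ S : Finset (Module.End Ω (E.X.H i)), ∀ σ : E.Γ, adE ((E.F σ).φ i) z ∈ S := by
  obtain ⟨O, hO, hO1, hOz⟩ := t_open Ω (E.X.H i) E.Γ (fun σ => (E.F σ).φ i)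
    (fun σ τ => E.mul σ τ i) (E.cont i) z hzz hz
  obtain ⟨t, ht⟩ := CompactSpace.elim_nhds_subcover (X := E.Γ) (fun σ => (fun τ => σ⁻¹ * τ) ⁻¹' O)
    (fun σ => (hO.preimage (continuous_const.mul continuous_id)).mem_nhds (by
      change σ⁻¹ * σ ∈ O
      rw [inv_mul_cancel]
      exact hO1))
  refine ⟨t.image fun σ => adE ((E.F σ).φ i) z, fun τ => ?_⟩
  have h1 : τ ∈ (⊤ : Set E.Γ) := trivial
  rw [← ht] at h1
  obtain ⟨σ, hσ, h2⟩ := Set.mem_iUnion₂.1 h1
  refine Finset.mem_image.2 ⟨σ, hσ, ?_⟩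
  have h3 : τ = σ * (σ⁻¹ * τ) := by group
  conv_rhs => rw [h3, adE_mul_apply, hOz _ h2]

end orbit

section

variable {Ω : Type} [Field Ω] [CharZero Ω] [IsAlgClosed Ω] [TopologicalSpace Ω]
  [IsTopologicalRing Ω] [T2Space Ω] {E : HKFamily Ω} {p h : ℕ} (L : WeilDeligne E p h)

include L in
omit [IsAlgClosed Ω] [IsTopologicalRing Ω] [T2Space Ω] in
lemma one_lt_q : 1 < p ^ h := Nat.one_lt_pow L.pos.ne' L.prime.one_lt

omit [IsAlgClosed Ω] [IsTopologicalRing Ω] [T2Space Ω] in
lemma pv_frob : (p : Ω) ^ (L.v L.frob) = ((p ^ h : ℕ) : Ω) := by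
  rw [L.v_frob, zpow_natCast, Nat.cast_pow]

omit [IsAlgClosed Ω] [IsTopologicalRing Ω] [T2Space Ω] in
lemma mu_frob : (L.G L.frob).μ = ((p ^ h : ℕ) : Ω) ^ 2 := by
  rw [L.mult, L.v_frob, mul_comm, zpow_mul, zpow_natCast, Nat.cast_pow]
  norm_cast

omit [IsAlgClosed Ω] [IsTopologicalRing Ω] [T2Space Ω] in
lemma twist_frob {i : ℕ} (hi : i ≤ E.d) (x : E.X.H i) :
    L.N i (en ((L.G L.frob).φ i) x) = ((p ^ h : ℕ) : Ω) • en ((L.G L.frob).φ i) (L.N i x) := by
  have := L.twist L.frob i hi x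
  rwa [pv_frob] at this

/-- The monodromy operator comes from `so(H²)`. -/
lemma N_eq {i : ℕ} (hi : i ≤ E.d) : L.N i = E.X.ρ i (L.N 2) := by
  have hq : ((p ^ h : ℕ) : Ω) ≠ 0 := by
    exact_mod_cast (one_lt_q L).ne_bot
  set a := L.N i - E.X.ρ i (L.N 2) with ha
  have hcen : a ∈ cen E.X i := by
    intro A hA
    have h1 := L.compat i hi A hA
    have h2 := E.X.bracket i (L.N 2) A L.skew hA
    rw [br, br, h2] at h1
    change E.X.ρ i A * a = a * E.X.ρ i A
    rw [ha, mul_sub, sub_mul]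
    have h3 : L.N i * E.X.ρ i A - E.X.ρ i (L.N 2) * E.X.ρ i A =
        E.X.ρ i A * L.N i - E.X.ρ i A * E.X.ρ i (L.N 2) := by
      have := h1
      rw [sub_eq_sub_iff_add_eq_add] at this ⊢
      rw [this]
      abel
    exact h3.symm
  have had : adE ((L.G L.frob).φ i) a = ((p ^ h : ℕ) : Ω)⁻¹ • a := by
    rw [ha, map_sub, adE_twist _ hq (twist_frob L hi), (L.G L.frob).hc,
      adE_twist _ hq (twist_frob L E.two_le), map_smul, smul_sub]
  by_contra hne
  have ha0 : a ≠ 0 := fun h => hne (sub_eq_zero.1 h)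
  have h1 := cen_root E hi hcen ha0 (L.closure L.frob) (t := ((p ^ h : ℕ) : Ω)⁻¹) (by
    rw [Module.End.mem_maxGenEigenspace]
    refine ⟨1, ?_⟩
    rw [pow_one, LinearMap.sub_apply, had]
    exact sub_self _)
  rw [inv_pow, inv_eq_one] at h1
  have h2 : (p ^ h) ^ expo E i = 1 := by exact_mod_cast h1
  exact absurd h2 (Nat.one_lt_pow (Nat.factorial_pos _).ne' (one_lt_q L)).ne'

variable {W : Wt Ω} (hWU : ∀ x, W.U x ↔ ∃ w : ℤ, IsWeilNumber (p ^ h) w x)
  (hWw : ∀ (w : ℤ) (x : Ω), IsWeilNumber (p ^ h) w x → W.w x = (w : ℚ))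

omit [IsAlgClosed Ω] [IsTopologicalRing Ω] [T2Space Ω] in
lemma weights' {i : ℕ} (hi : i ≤ E.d) : ∀ e ∈ (en ((L.G L.frob).φ i)).charpoly.roots,
    ∃ w : ℤ, IsWeilNumber (p ^ h) w e := by
  intro e he
  refine L.weights i hi e ?_
  rw [Polynomial.mem_roots (LinearMap.charpoly_monic _).ne_zero] at he
  exact (Module.End.hasEigenvalue_iff_isRoot_charpoly _ _).2 he

include hWU in
omit [IsAlgClosed Ω] [IsTopologicalRing Ω] [T2Space Ω] in
lemma U_bad {i : ℕ} (hi : i ≤ E.d) : ∀ e ∈ (en ((L.G L.frob).φ i)).charpoly.roots, W.U e :=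
  fun e he => (hWU e).2 (weights' L hi e he)

include hWU hWw in
/-- The operator `T` commutes with the commutant of `so(H²)`. -/
lemma T_cen {i : ℕ} (hi : i ≤ E.d) (κ : ℚ) {a : Module.End Ω (E.X.H i)}
    (ha : a ∈ cen E.X i) : Commute ((L.G L.frob).T W i κ) a := by
  have hst : ∀ x ∈ cen E.X i, adE ((L.G L.frob).φ i) x ∈ cen E.X i := fun x hx => cen_ad _ hx
  set T := (L.G L.frob).T W i κ with hT
  have key : (LinearMap.mulLeft Ω T - LinearMap.mulRight Ω T) ∘ₗ (cen E.X i).subtype = 0 := by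
    refine ext_gen ((adE ((L.G L.frob).φ i)).restrict hst) fun t x hx => ?_
    rw [LinearMap.zero_apply]
    change T * (x : Module.End Ω (E.X.H i)) - (x : Module.End Ω (E.X.H i)) * T = 0
    have hx' : (x : Module.End Ω (E.X.H i)) ∈ (adE ((L.G L.frob).φ i)).maxGenEigenspace t := by
      rw [Module.End.mem_maxGenEigenspace] at hx ⊢
      obtain ⟨k, hk⟩ := hx
      refine ⟨k, ?_⟩
      have h2 : ∀ (k : ℕ) (x : cen E.X i),
          (((((adE ((L.G L.frob).φ i)).restrict hst) - t • 1) ^ k) x :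
            Module.End Ω (E.X.H i)) =
          ((adE ((L.G L.frob).φ i) - t • 1) ^ k) (x : Module.End Ω (E.X.H i)) := by
        intro k
        induction k with
        | zero => intro x; rfl
        | succ k ih =>
          intro x
          rw [_root_.pow_succ, _root_.pow_succ, Module.End.mul_apply, Module.End.mul_apply, ih]
          rfl
      rw [← h2, hk]
      rfl
    by_cases hx0 : (x : Module.End Ω (E.X.H i)) = 0
    · rw [hx0, mul_zero, zero_mul, sub_zero]
    have ht := cen_root E hi x.2 hx0 (L.closure L.frob) hx'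
    have hw : W.w t = 0 := by
      have h3 : IsWeilNumber (p ^ h) 0 t := by
        refine Pool.Agent.Y143.IsWeilNumber.of_pow (k := expo E i) (Nat.factorial_pos _) ?_
        rw [ht, mul_zero]
        exact Pool.Agent.Y143.IsWeilNumber.one _
      have := hWw 0 t h3
      rw [this, Int.cast_zero]
    have h4 := T_ad (F := L.G L.frob) (W := W) (U_bad L hWU E.two_le) (U_bad L hWU hi) κ x.2 hx'
    rw [h4, Wt.k, hw, Rat.cast_zero, zero_smul]
  have h5 := congrArg (fun f => f ⟨a, ha⟩) key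
  exact sub_eq_zero.1 h5

include hWU hWw in
/-- The operator `T` is nilpotent. -/
lemma T_bad_nil {i : ℕ} (hi : i ≤ E.d) : IsNilpotent ((L.G L.frob).T W i i) := by
  set q := p ^ h with hq
  have hq1 : 1 < q := one_lt_q L
  set T := (L.G L.frob).T W i i with hT
  refine nil_of_roots fun x hx => ?_
  obtain ⟨z, n, hn, hzz, hz, htz, htTz⟩ := proj_spec hx
  have hzcen : z ∈ cen E.X i := fun A hA =>
    hz _ (T_comm (U_bad L hWU E.two_le) (U_bad L hWU hi) i hA)
  have hzc : ∀ a ∈ cen E.X i, Commute a z := fun a ha => hz a (T_cen L hWU hWw hi i ha).symm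
  have hzφ : Commute (en ((L.G L.frob).φ i)) z := hz _ (T_comm_φ i _).symm
  obtain ⟨S, hS⟩ := orbit_fin E hzz fun σ => (hzc _ (cen_ad (E.F σ) hzcen)).symm
  -- linear functionals which separate `z` from its conjugates
  have hfun : ∀ w : Module.End Ω (E.X.H i), ∃ l : Module.End Ω (E.X.H i) →ₗ[Ω] Ω,
      w ≠ z → l (z - w) ≠ 0 := by
    intro w
    by_cases hw : w = z
    · exact ⟨0, fun h => absurd hw h⟩
    · by_contra hcon
      push Not at hcon
      exact hw (sub_eq_zero.1 ((Module.forall_dual_apply_eq_zero_iff Ω (z - w)).1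
        fun l => (hcon l).2)).symm
  choose l hl using hfun
  -- determinants
  have hcts : Rg fun F : E.X.Auto => en (F.φ i) * z + (1 - z) :=
    rg_add (rg_mul (rg_phi i) (rg_const z)) (rg_const _)
  have hg1 : (fun F : E.X.Auto => LinearMap.det (en (F.φ i) * z + (1 - z)) ^
      (4 * expo2 E.X i n) - F.μ ^ (i * n * expo2 E.X i n)) ∈ polyFun E.X :=
    (polyFun E.X).sub_mem ((polyFun E.X).pow_mem (det_mem hcts) _)
      ((polyFun E.X).pow_mem mu_mem _)
  have hg2 : (fun F : E.X.Auto => ∏ w ∈ S.erase z, l w (adE (F.φ i) z - w)) ∈ polyFun E.X :=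
    prod_mem' _ (fun w F => l w (adE (F.φ i) z - w)) fun w _ =>
      rg_sub (rg_adE i (rg_const z)) (rg_const w) (l w)
  have h0 := good_zero E ((polyFun E.X).mul_mem hg1 hg2) (fun σ r g => ?_) (L.closure L.frob)
  swap
  · by_cases hσ : adE ((E.F σ).φ i) z = z
    · have h1 := good_det E.two_le g hi hzcen hzz ((adE_eq_iff _ _).1 hσ) htz
      exact mul_eq_zero_of_left (sub_eq_zero.2 h1) _
    · refine mul_eq_zero_of_right _ (Finset.prod_eq_zero
        (Finset.mem_erase.2 ⟨hσ, hS σ⟩) ?_)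
      rw [sub_self, map_zero]
  have h0' : (LinearMap.det (en ((L.G L.frob).φ i) * z + (1 - z)) ^ (4 * expo2 E.X i n) -
      (L.G L.frob).μ ^ (i * n * expo2 E.X i n)) *
      ∏ w ∈ S.erase z, l w (adE ((L.G L.frob).φ i) z - w) = 0 := h0
  have hne : ∏ w ∈ S.erase z, l w (adE ((L.G L.frob).φ i) z - w) ≠ 0 := by
    rw [(adE_eq_iff _ _).2 hzφ]
    exact Finset.prod_ne_zero_iff.2 fun w hw => hl w (Finset.mem_erase.1 hw).1
  have hdet := sub_eq_zero.1 ((mul_eq_zero.1 h0').resolve_right hne)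
  obtain ⟨s, hs, hcard, hsdet, htr⟩ := t_detp Ω _ _ z hzφ hzz
  rw [hsdet, mu_frob] at hdet
  have hU1 : W.U 1 := (hWU 1).2 ⟨0, Pool.Agent.Y143.IsWeilNumber.one _⟩
  have hUs : ∀ e ∈ s, W.U e := fun e he => U_bad L hWU hi e (hs e he)
  have h5 := w_prod W hU1 hUs
  have h6 := w_pow W hU1 h5.1 (4 * expo2 E.X i n)
  have hqW : IsWeilNumber q 2 (q : Ω) := by
    refine ⟨isAlgebraic_natCast q, fun y hy => ?_⟩
    have h7 : minpoly ℚ (q : Ω) = Polynomial.X - C (q : ℚ) := by
      have := minpoly.eq_X_sub_C Ω (q : ℚ)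
      rw [map_natCast] at this
      exact this
    rw [h7] at hy
    simp only [map_sub, aeval_X, aeval_C, sub_eq_zero] at hy
    rw [hy]
    simp
  have hUq : W.U (q : Ω) := (hWU _).2 ⟨2, hqW⟩
  have hwq : W.w (q : Ω) = 2 := by
    have := hWw 2 _ hqW
    rw [this]; norm_num
  have h8 := w_pow W hU1 hUq 2
  have h9 := w_pow W hU1 h8.1 (i * n * expo2 E.X i n)
  have h10 : (4 * expo2 E.X i n : ℚ) * (s.map W.w).sum = (i * n * expo2 E.X i n) * (2 * 2) := by
    have := congrArg W.w hdet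
    rw [h6.2, h9.2, h8.2, h5.2, hwq] at this
    push_cast at this
    exact this
  have hpos : (0 : ℚ) < expo2 E.X i n := by exact_mod_cast expo2_pos i n
  have h11 : (s.map W.w).sum = i * n := by
    have h12 : (4 * expo2 E.X i n : ℚ) * ((s.map W.w).sum - i * n) = 0 := by
      rw [mul_sub, h10]; ring
    rcases mul_eq_zero.1 h12 with h | h
    · exfalso; linarith
    · linarith
  have h12 := htr W.k
  have h13 : (s.map W.k).sum = (((s.map W.w).sum : ℚ) : Ω) := cast_sum_map _ _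
  rw [h13, h11, fop_split (L.G L.frob) W i (i : ℚ), add_mul, add_mul, map_add, map_add,
    tr_rho_mul (skew_S2 (U_bad L hWU E.two_le)) (fun B hB => hzcen B hB), smul_mul_assoc,
    one_mul, map_smul, htz, smul_eq_mul, add_zero, ← hT, htTz] at h12
  have h14 : x * n = 0 := by
    have h15 : (((i : ℚ) * n : ℚ) : Ω) = ((i : ℚ) : Ω) * n := by
      rw [Rat.cast_mul, Rat.cast_natCast, Rat.cast_natCast]
    rw [h15] at h12
    exact add_eq_left.1 h12
  rcases mul_eq_zero.1 h14 with h | h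
  · exact h
  · exfalso
    have : n = 0 := by exact_mod_cast h
    omega

end

end Pool.Agent.J4H44.PM
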