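import Pool.Agent.J4H44.PM.A3
import Pool.Agent.N184.HK.P_QU
import Pool.Agent.N184.HK.P_CTS
import Pool.Agent.N184.HK.P_OPEN

/-!
# From the Frobenius elements to the Zariski closure (adapted from `Pool.Agent.N184.HK.W4`)
-/

set_option autoImplicit false

namespace Pool.Agent.J4H44.PM

open Module Module.End Polynomial Pool.Agent.N184.HK
open scoped Classical

section reg

variable {Ω : Type} [Field Ω] {d : ℕ} {c : ℚ} {X : Cohomology Ω d c}

/-- The entries of `g` are polynomial functions. -/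
def Rg {H : Type} [AddCommGroup H] [Module Ω H] (g : X.Auto → Module.End Ω H) : Prop :=
  ∀ L : Module.End Ω H →ₗ[Ω] Ω, (fun F => L (g F)) ∈ polyFun X

lemma rg_phi (i : ℕ) : Rg (fun F : X.Auto => en (F.φ i)) := fun L =>
  Algebra.subset_adjoin (Or.inr ⟨i, L, Or.inl fun _ => rfl⟩)

lemma rg_symm (i : ℕ) : Rg (fun F : X.Auto => en (F.φ i).symm) := fun L =>
  Algebra.subset_adjoin (Or.inr ⟨i, L, Or.inr fun _ => rfl⟩)

lemma mu_mem : (fun F : X.Auto => F.μ) ∈ polyFun X :=
  Algebra.subset_adjoin (Or.inl fun _ => rfl)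

lemma const_mem (a : Ω) : (fun _ : X.Auto => a) ∈ polyFun X :=
  (polyFun X).algebraMap_mem a

section

variable {H : Type} [AddCommGroup H] [Module Ω H]

lemma rg_const (a : Module.End Ω H) : Rg (fun _ : X.Auto => a) := fun L => const_mem (L a)

lemma rg_add {g h : X.Auto → Module.End Ω H} (hg : Rg g) (hh : Rg h) :
    Rg fun F => g F + h F := by
  intro L
  have h1 : (fun F => L (g F + h F)) = (fun F => L (g F)) + fun F => L (h F) := by
    funext F
    rw [map_add]
    rfl
  rw [h1]
  exact (polyFun X).add_mem (hg L) (hh L)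

lemma rg_sub {g h : X.Auto → Module.End Ω H} (hg : Rg g) (hh : Rg h) :
    Rg fun F => g F - h F := by
  intro L
  have h1 : (fun F => L (g F - h F)) = (fun F => L (g F)) - fun F => L (h F) := by
    funext F
    rw [map_sub]
    rfl
  rw [h1]
  exact (polyFun X).sub_mem (hg L) (hh L)

lemma sum_mem' {ι : Type} (s : Finset ι) (f : ι → X.Auto → Ω) (h : ∀ i ∈ s, f i ∈ polyFun X) :
    (fun F => ∑ i ∈ s, f i F) ∈ polyFun X := by
  have h1 : (fun F => ∑ i ∈ s, f i F) = ∑ i ∈ s, f i := by
    funext F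
    rw [Finset.sum_apply]
  rw [h1]
  exact (polyFun X).sum_mem h

lemma prod_mem' {ι : Type} (s : Finset ι) (f : ι → X.Auto → Ω) (h : ∀ i ∈ s, f i ∈ polyFun X) :
    (fun F => ∏ i ∈ s, f i F) ∈ polyFun X := by
  have h1 : (fun F => ∏ i ∈ s, f i F) = ∏ i ∈ s, f i := by
    funext F
    rw [Finset.prod_apply]
  rw [h1]
  exact (polyFun X).prod_mem h

variable [FiniteDimensional Ω H]

lemma rg_entry {g : X.Auto → Module.End Ω H} (hg : Rg g)
    (i j : Fin (finrank Ω H)) :
    (fun F => LinearMap.toMatrix (Module.finBasis Ω H) (Module.finBasis Ω H) (g F) i j) ∈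
      polyFun X := by
  let L : Module.End Ω H →ₗ[Ω] Ω :=
    { toFun := fun A => LinearMap.toMatrix (Module.finBasis Ω H) (Module.finBasis Ω H) A i j
      map_add' := fun A B => by rw [map_add, Matrix.add_apply]
      map_smul' := fun c A => by rw [map_smul, Matrix.smul_apply, RingHom.id_apply] }
  exact hg L

lemma rg_mul {g h : X.Auto → Module.End Ω H} (hg : Rg g) (hh : Rg h) :
    Rg fun F => g F * h F := by
  intro L
  let b := Module.finBasis Ω H
  have hL : ∀ A : Module.End Ω H, L A = ∑ i, ∑ j, LinearMap.toMatrix b b A i j *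
      L ((LinearMap.toMatrix b b).symm (Matrix.single i j 1)) := by
    intro A
    have h1 : A = (LinearMap.toMatrix b b).symm (LinearMap.toMatrix b b A) := by simp
    conv_lhs => rw [h1, Matrix.matrix_eq_sum_single (LinearMap.toMatrix b b A)]
    rw [map_sum, map_sum]
    refine Finset.sum_congr rfl fun i _ => ?_
    rw [map_sum, map_sum]
    refine Finset.sum_congr rfl fun j _ => ?_
    have h2 : Matrix.single i j (LinearMap.toMatrix b b A i j) =
        (LinearMap.toMatrix b b A i j) • Matrix.single i j (1:Ω) := by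
      rw [Matrix.smul_single, smul_eq_mul, mul_one]
    rw [h2, map_smul, map_smul, smul_eq_mul]
  have h3 : (fun F => L (g F * h F)) = fun F => ∑ i, ∑ j,
      (∑ k, LinearMap.toMatrix b b (g F) i k * LinearMap.toMatrix b b (h F) k j) *
      L ((LinearMap.toMatrix b b).symm (Matrix.single i j 1)) := by
    funext F
    rw [hL, LinearMap.toMatrix_mul]
    rfl
  rw [h3]
  refine sum_mem' _ _ fun i _ => sum_mem' _ _ fun j _ => ?_
  exact (polyFun X).mul_mem (sum_mem' _ _ fun k _ =>
    (polyFun X).mul_mem (rg_entry hg i k) (rg_entry hh k j)) (const_mem _)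

lemma det_mem {g : X.Auto → Module.End Ω H} (hg : Rg g) :
    (fun F => LinearMap.det (g F)) ∈ polyFun X := by
  have h1 : (fun F => LinearMap.det (g F)) = fun F => ∑ π : Equiv.Perm (Fin (finrank Ω H)),
      ((Equiv.Perm.sign π : ℤ) : Ω) * ∏ i, LinearMap.toMatrix (Module.finBasis Ω H)
        (Module.finBasis Ω H) (g F) (π i) i := by
    funext F
    rw [← LinearMap.det_toMatrix (Module.finBasis Ω H), Matrix.det_apply']
  rw [h1]
  exact sum_mem' _ _ fun π _ => (polyFun X).mul_mem (const_mem _)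
    (prod_mem' _ _ fun i _ => rg_entry hg _ _)

end

lemma rg_adE (i : ℕ) {g : X.Auto → Module.End Ω (X.H i)} (hg : Rg g) :
    Rg fun F => adE (F.φ i) (g F) := by
  have h := rg_mul (rg_mul (rg_phi i) hg) (rg_symm i)
  exact h

lemma rg_adE_pow (i M : ℕ) {g : X.Auto → Module.End Ω (X.H i)} (hg : Rg g) :
    Rg fun F => ((adE (F.φ i)) ^ M) (g F) := by
  induction M with
  | zero => exact hg
  | succ M ih =>
    have h := rg_adE i ih
    have h2 : (fun F : X.Auto => ((adE (F.φ i)) ^ (M + 1)) (g F)) =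
        fun F => adE (F.φ i) (((adE (F.φ i)) ^ M) (g F)) := by
      funext F
      rw [_root_.pow_succ']
      rfl
    rw [h2]
    exact h

lemma rg_quasi (i M m : ℕ) {g : X.Auto → Module.End Ω (X.H i)} (hg : Rg g) :
    Rg fun F => (((adE (F.φ i)) ^ M - 1) ^ m) (g F) := by
  induction m with
  | zero => exact hg
  | succ m ih =>
    have h := rg_sub (rg_adE_pow i M ih) ih
    have h2 : (fun F : X.Auto => (((adE (F.φ i)) ^ M - 1) ^ (m + 1)) (g F)) =
        fun F => ((adE (F.φ i)) ^ M) ((((adE (F.φ i)) ^ M - 1) ^ m) (g F)) -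
          (((adE (F.φ i)) ^ M - 1) ^ m) (g F) := by
      funext F
      rw [_root_.pow_succ']
      rfl
    rw [h2]
    exact h

end reg

section fam

variable {Ω : Type} [Field Ω] [TopologicalSpace Ω] (E : HKFamily Ω)

lemma phi_one (i : ℕ) (x : E.X.H i) : (E.F 1).φ i x = x := by
  have h := E.mul 1 1 i
  rw [one_mul] at h
  have h2 := congrArg (fun f => f x) h
  exact ((E.F 1).φ i).injective h2.symm

lemma phi_inv (σ : E.Γ) (i : ℕ) : (E.F σ⁻¹).φ i = ((E.F σ).φ i).symm := by
  ext x
  have h := E.mul σ σ⁻¹ i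
  rw [mul_inv_cancel] at h
  have h2 : (E.F 1).φ i x = (E.F σ).φ i ((E.F σ⁻¹).φ i x) := congrArg (fun f => f x) h
  rw [phi_one] at h2
  rw [LinearEquiv.eq_symm_apply, ← h2]

lemma adE_mul_apply (σ τ : E.Γ) (i : ℕ) (a : Module.End Ω (E.X.H i)) :
    adE ((E.F (σ * τ)).φ i) a = adE ((E.F σ).φ i) (adE ((E.F τ).φ i) a) := by
  rw [E.mul σ τ i]
  ext x
  simp [adE, LinearEquiv.conj_apply]

/-- Polynomial functions are continuous on the fundamental group. -/
lemma poly_cont [IsTopologicalRing Ω] {f : E.X.Auto → Ω} (hf : f ∈ polyFun E.X) :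
    Continuous fun σ => f (E.F σ) := by
  refine Algebra.adjoin_induction (p := fun f _ => Continuous fun σ => f (E.F σ)) ?_ ?_ ?_ ?_ hf
  · rintro f (hf | ⟨i, L, hf | hf⟩)
    · rw [show (fun σ => f (E.F σ)) = fun σ => (E.F σ).μ from funext fun σ => hf _]
      exact E.cont_μ
    · rw [show (fun σ => f (E.F σ)) = fun σ => L (en ((E.F σ).φ i)) from funext fun σ => hf _]
      exact E.cont i L
    · rw [show (fun σ => f (E.F σ)) = fun σ => L (en ((E.F σ).φ i).symm) from
        funext fun σ => hf _]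
      have h1 := (E.cont i L).comp continuous_inv
      have h2 : ((fun σ => L (en ((E.F σ).φ i))) ∘ fun a : E.Γ => a⁻¹) =
          fun σ => L (en ((E.F σ).φ i).symm) := by
        funext σ
        rw [Function.comp_apply, phi_inv]
      rw [← h2]
      exact h1
  · intro r
    exact continuous_const
  · intro f g _ _ hf hg
    exact hf.add hg
  · intro f g _ _ hf hg
    exact hf.mul hg

/-- A polynomial function which vanishes at the good Frobenius elements vanishes on the Zariski
closure of the image of the fundamental group. -/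
lemma good_zero [IsTopologicalRing Ω] [T2Space Ω] {f : E.X.Auto → Ω} (hf : f ∈ polyFun E.X)
    (h : ∀ (σ : E.Γ) (r : ℕ), GoodFrobenius (E.F σ) r → f (E.F σ) = 0) {F : E.X.Auto}
    (hF : E.InClosure F) : f F = 0 := by
  refine hF f hf fun σ => ?_
  by_contra hne
  obtain ⟨τ, hτ, r, ⟨g⟩⟩ := E.dense _ (isOpen_compl_singleton.preimage (poly_cont E hf)) ⟨σ, hne⟩
  exact hτ (h τ r g)

end fam

section

variable {Ω : Type} [Field Ω]

lemma restrict_quasi {V : Type} [AddCommGroup V] [Module Ω V] {p : Submodule Ω V}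
    {f : Module.End Ω p} {g : Module.End Ω V} (h : ∀ x : p, ((f x : p) : V) = g x) (M m : ℕ)
    (x : p) : (((f ^ M - 1) ^ m) x : p) = ((g ^ M - 1) ^ m) (x : V) := by
  have h1 : ∀ (M : ℕ) (x : p), (((f ^ M) x : p) : V) = (g ^ M) x := by
    intro M
    induction M with
    | zero => intro x; rfl
    | succ M ih =>
      intro x
      rw [_root_.pow_succ, _root_.pow_succ, Module.End.mul_apply, Module.End.mul_apply, ih, h]
  induction m generalizing x with
  | zero => rfl
  | succ m ih =>
    rw [_root_.pow_succ, _root_.pow_succ, Module.End.mul_apply, Module.End.mul_apply, ih]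
    congr 1
    rw [LinearMap.sub_apply, LinearMap.sub_apply, Submodule.coe_sub, h1]
    rfl

/-- The generalized eigenvalues are roots of unity. -/
lemma root_of_quasi {V : Type} [AddCommGroup V] [Module Ω V] {g : Module.End Ω V} {M m : ℕ}
    {t : Ω} {a : V} (ha0 : a ≠ 0) (hat : a ∈ g.maxGenEigenspace t)
    (h : ∀ b : V, (∃ k : ℕ, b = ((g - t • 1) ^ k) a) → ((g ^ M - 1) ^ m) b = 0) : t ^ M = 1 := by
  rw [Module.End.mem_maxGenEigenspace] at hat
  have hex := hat
  set k := Nat.find hex with hk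
  have hk1 : ((g - t • (1 : Module.End Ω V)) ^ k) a = 0 := Nat.find_spec hex
  have hk0 : k ≠ 0 := fun h0 => by
    rw [h0] at hk1
    exact ha0 hk1
  obtain ⟨k', hk'⟩ := Nat.exists_eq_succ_of_ne_zero hk0
  set b := ((g - t • (1 : Module.End Ω V)) ^ k') a with hb
  have hb0 : b ≠ 0 := Nat.find_min hex (by omega : k' < k)
  have hgb : g b = t • b := by
    have h1 : ((g - t • (1 : Module.End Ω V))) b = 0 := by
      rw [hb, ← Module.End.mul_apply, ← _root_.pow_succ', ← Nat.succ_eq_add_one, ← hk']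
      exact hk1
    rw [LinearMap.sub_apply, sub_eq_zero] at h1
    exact h1
  have hgn : ∀ n : ℕ, (g ^ n) b = t ^ n • b := by
    intro n
    induction n with
    | zero => simp
    | succ n ih =>
      rw [_root_.pow_succ', Module.End.mul_apply, ih, map_smul, hgb, smul_smul, _root_.pow_succ]
  have hgm : ∀ m : ℕ, ((g ^ M - 1) ^ m) b = (t ^ M - 1) ^ m • b := by
    intro m
    induction m with
    | zero => simp
    | succ m ih =>
      rw [_root_.pow_succ', Module.End.mul_apply, ih, map_smul, LinearMap.sub_apply, hgn,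
        _root_.pow_succ, mul_smul, sub_smul, one_smul]
      rfl
  have h2 := h b ⟨k', rfl⟩
  rw [hgm] at h2
  have h3 := (smul_eq_zero.1 h2).resolve_right hb0
  have hm : m ≠ 0 := fun h0 => by
    rw [h0] at h3
    simp at h3
  exact sub_eq_zero.1 ((pow_eq_zero_iff hm).1 h3)

end

section

variable {Ω : Type} [Field Ω] [CharZero Ω] [IsAlgClosed Ω] [TopologicalSpace Ω]
  [IsTopologicalRing Ω] [T2Space Ω] (E : HKFamily Ω)

/-- The exponent of the roots of unity. -/
noncomputable def expo (E : HKFamily Ω) (i : ℕ) : ℕ :=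
  (2 * (finrank Ω (E.X.H i)) ^ 2).factorial

/-- The Zariski closure of the fundamental group acts quasi-unipotently on the commutant of
`so(H²)`. -/
lemma all_quasi {i : ℕ} (hi : i ≤ E.d) {a : Module.End Ω (E.X.H i)} (ha : a ∈ cen E.X i)
    {F : E.X.Auto} (hF : E.InClosure F) :
    (((adE (F.φ i)) ^ (expo E i) - 1) ^ (finrank Ω (cen E.X i))) a = 0 := by
  refine (Module.forall_dual_apply_eq_zero_iff Ω _).1 fun L => ?_
  refine good_zero E (rg_quasi i (expo E i) (finrank Ω (cen E.X i)) (rg_const a) L)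
    (fun σ r g => ?_) hF
  have hst : ∀ x ∈ cen E.X i, adE ((E.F σ).φ i) x ∈ cen E.X i := fun x hx => cen_ad _ hx
  have h1 := t_qu Ω (cen E.X i) ((adE ((E.F σ).φ i)).restrict hst) (expo E i) (by
    intro t ht
    obtain ⟨x, hx⟩ := ht.exists_hasEigenvector
    have hx1 := hx.apply_eq_smul
    have hx2 : adE ((E.F σ).φ i) (x : Module.End Ω (E.X.H i)) = t • (x : Module.End Ω _) :=
      congrArg Subtype.val hx1
    have hx0 : (x : Module.End Ω (E.X.H i)) ≠ 0 := fun h => hx.2 (Subtype.ext h)
    refine good_eig E.two_le g hi x.2 hx0 ?_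
    rw [Module.End.mem_maxGenEigenspace]
    refine ⟨1, ?_⟩
    rw [pow_one, LinearMap.sub_apply, hx2, LinearMap.smul_apply]
    exact sub_self _)
  have h2 := restrict_quasi (p := cen E.X i) (f := (adE ((E.F σ).φ i)).restrict hst)
    (g := adE ((E.F σ).φ i)) (fun x => rfl) (expo E i) (finrank Ω (cen E.X i)) ⟨a, ha⟩
  rw [h1] at h2
  exact (congrArg L h2.symm).trans (map_zero L)

lemma cen_root {i : ℕ} (hi : i ≤ E.d) {a : Module.End Ω (E.X.H i)} (ha : a ∈ cen E.X i)
    (ha0 : a ≠ 0) {F : E.X.Auto} (hF : E.InClosure F) {t : Ω}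
    (hat : a ∈ (adE (F.φ i)).maxGenEigenspace t) :
    t ^ expo E i = 1 := by
  refine root_of_quasi (m := finrank Ω (cen E.X i)) ha0 hat ?_
  rintro b ⟨k, rfl⟩
  refine all_quasi E hi ?_ hF
  induction k with
  | zero => exact ha
  | succ k ih =>
    rw [_root_.pow_succ', Module.End.mul_apply, LinearMap.sub_apply]
    exact Submodule.sub_mem _ (cen_ad _ ih) (Submodule.smul_mem _ _ ih)

end

end Pool.Agent.J4H44.PM
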