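import Pool.Agent.J4H44.PM.A2
import Pool.Agent.N184.HK.P_DETP

/-!
# The commutant of `so(H²)` at good places (adapted from `Pool.Agent.N184.HK.W3`, `W5`)
-/

set_option autoImplicit false

namespace Pool.Agent.J4H44.PM

open Module Module.End Polynomial Pool.Agent.N184.HK
open scoped Classical

/-- The field of algebraic numbers. -/
abbrev QQ : Type := AlgebraicClosure ℚ

instance : Algebra.IsAlgebraic ℚ QQ := by
  convert AlgebraicClosure.isAlgebraic ℚ
  · rfl
  · exact Subsingleton.elim _ _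

section cen

variable {K : Type} [Field K] {d : ℕ} {c : ℚ} (X : Cohomology K d c)

/-- The commutant of `so(H²)`. -/
def cen (i : ℕ) : Submodule K (Module.End K (X.H i)) where
  carrier := {a | ∀ A, Skew X.q A → Commute (X.ρ i A) a}
  add_mem' ha hb A hA := (ha A hA).add_right (hb A hA)
  zero_mem' _ _ := Commute.zero_right _
  smul_mem' r _ ha A hA := (ha A hA).smul_right r

variable {X}

lemma cen_ad (F : X.Auto) {i : ℕ} {a : Module.End K (X.H i)} (ha : a ∈ cen X i) :
    adE (F.φ i) a ∈ cen X i := by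
  intro A hA
  set A' : Module.End K (X.H 2) := (F.φ 2).symm.conj A with hA'
  have h1 : adE (F.φ 2) A' = A := by
    ext x
    simp [hA', adE, LinearEquiv.conj_apply]
  have h2 : Skew X.q A' := by
    intro x y
    have h3 : X.q (F.φ 2 (A' x)) (F.φ 2 y) = F.μ * X.q (A' x) y := F.similar _ _
    have h4 : X.q (F.φ 2 x) (F.φ 2 (A' y)) = F.μ * X.q x (A' y) := F.similar _ _
    have h5 : ∀ x, F.φ 2 (A' x) = A (F.φ 2 x) := by
      intro x
      simp [hA', LinearEquiv.conj_apply]
    have h6 := hA (F.φ 2 x) (F.φ 2 y)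
    rw [← h5, ← h5, h3, h4, ← mul_add] at h6
    exact (mul_eq_zero.1 h6).resolve_left F.μ_ne
  have h3 : X.ρ i A = adE (F.φ i) (X.ρ i A') := by
    rw [F.hc, h1]
  have h4 := ha A' h2
  have h5 : ∀ B C : Module.End K (X.H i), adE (F.φ i) (B * C) = adE (F.φ i) B * adE (F.φ i) C := by
    intro B C
    ext x
    simp [adE, LinearEquiv.conj_apply]
  rw [h3]
  change adE (F.φ i) (X.ρ i A') * adE (F.φ i) a = adE (F.φ i) a * adE (F.φ i) (X.ρ i A')
  rw [← h5, ← h5, h4.eq]

end cen

section split

variable {K' : Type} [Field K'] [IsAlgClosed K'] [CharZero K'] {d : ℕ} {c : ℚ}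
  {Y : Cohomology K' d c}

/-- The decomposition of the weight operator. -/
lemma fop_split (F : Y.Auto) (W : Wt K') (i : ℕ) (κ : ℚ) :
    fop (en (F.φ i)) W.k = (κ : K') • 1 + Y.ρ i (F.S2 W) + F.T W i κ := by
  rw [T_eq]; abel

/-- `[T, a] = w(t) a` for an element `a` of the commutant of `so(H²)`. -/
lemma T_ad {F : Y.Auto} {W : Wt K'}
    (h2 : ∀ e ∈ (en (F.φ 2)).charpoly.roots, W.U e) {i : ℕ}
    (hi : ∀ e ∈ (en (F.φ i)).charpoly.roots, W.U e) (κ : ℚ) {t : K'}
    {a : Module.End K' (Y.H i)} (ha : a ∈ cen Y i) (hat : a ∈ (adE (F.φ i)).maxGenEigenspace t) :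
    F.T W i κ * a - a * F.T W i κ = W.k t • a := by
  have h1 := comm_fop W hi hat
  have h3 := (ha _ (skew_S2 (F := F) (W := W) h2)).eq
  rw [fop_split F W i κ] at h1
  rw [← h1, add_mul, add_mul, mul_add, mul_add, h3, smul_mul_assoc, mul_smul_comm, one_mul,
    mul_one]
  abel

end split

section wt

variable {F : Type} [Field F] (W : Wt F) (h1 : W.U 1)

include h1 in
lemma w_one : W.w 1 = 0 := by
  have h := W.w_mul 1 1 h1 h1
  rw [mul_one] at h
  linarith

include h1 in
lemma w_prod {s : Multiset F} (hs : ∀ e ∈ s, W.U e) :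
    W.U s.prod ∧ W.w s.prod = (s.map W.w).sum := by
  induction s using Multiset.induction_on with
  | empty => exact ⟨by simpa using h1, by simpa using w_one W h1⟩
  | cons a s ih =>
    obtain ⟨h2, h3⟩ := ih fun e he => hs e (Multiset.mem_cons_of_mem he)
    have h4 := hs a (Multiset.mem_cons_self a s)
    rw [Multiset.prod_cons, Multiset.map_cons, Multiset.sum_cons, ← h3]
    exact ⟨W.mul _ _ h4 h2, W.w_mul _ _ h4 h2⟩

include h1 in
lemma w_pow {x : F} (hx : W.U x) (k : ℕ) : W.U (x ^ k) ∧ W.w (x ^ k) = k * W.w x := by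
  induction k with
  | zero => exact ⟨by simpa using h1, by simpa using w_one W h1⟩
  | succ k ih =>
    rw [_root_.pow_succ]
    refine ⟨W.mul _ _ ih.1 hx, ?_⟩
    rw [W.w_mul _ _ ih.1 hx, ih.2]
    push_cast
    ring

include h1 in
lemma w_div {x y : F} (hx : W.U x) (hy : W.U y) :
    W.U (x / y) ∧ W.w (x / y) = W.w x - W.w y := by
  have h2 : W.U (x / y) := by
    rw [div_eq_mul_inv]
    exact W.mul _ _ hx (W.inv _ hy)
  refine ⟨h2, ?_⟩
  have h3 := W.w_mul _ _ h2 hy
  rw [div_mul_cancel₀ x (W.ne _ hy)] at h3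
  linarith

end wt

section good

variable {Ω : Type} [Field Ω] [CharZero Ω] [IsAlgClosed Ω] {d : ℕ} {c : ℚ}
  {X : Cohomology Ω d c} (hd : 2 ≤ d) {F : X.Auto} {r : ℕ} (g : GoodFrobenius F r) (j : QQ →+* Ω)

include g in
lemma roots_frob {i : ℕ} (hi : i ≤ d) : (en (F.φ i)).charpoly.roots =
    ((g.poly i).map (Int.castRingHom QQ)).roots.map j := by
  rw [g.frobPoly i hi, roots_int j]

include g in
lemma U_frob {C : Type} [Field C] (ι : QQ →+* C) (val : AddValuation C (WithTop ℚ)) {i : ℕ}
    (hi : i ≤ d) : ∀ e ∈ (en (F.φ i)).charpoly.roots, (WI j ι val).U e := by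
  intro e he
  have h0 := root_ne he
  rw [roots_frob g j hi] at he
  obtain ⟨y, -, rfl⟩ := Multiset.mem_map.1 he
  exact ⟨y, fun h => h0 (by rw [h, map_zero]), rfl⟩

lemma map_w (ι : QQ →+* g.crys.C) {i : ℕ} (hi : i ≤ d) :
    (en (F.φ i)).charpoly.roots.map (WI j ι g.crys.val).w =
      (en (g.crys.F.φ i)).charpoly.roots.map g.crys.W.w := by
  rw [roots_frob g j hi, g.crysPoly i hi, roots_int ι, Multiset.map_map, Multiset.map_map]
  refine Multiset.map_congr rfl fun y _ => ?_
  rw [Function.comp_apply, Function.comp_apply, WI_w]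
  rfl

include hd in
lemma good_nil (ι : QQ →+* g.crys.C) {i : ℕ} (hi : i ≤ d) :
    IsNilpotent (F.T (WI j ι g.crys.val) i (i / 2)) := by
  have hmom : ∀ i ≤ d, ∀ κ : ℚ, mom F (WI j ι g.crys.val) i κ =
      mom g.crys.F g.crys.W i κ := by
    intro i hi κ
    have h1 : ∀ {K' : Type} [Field K'] (m : Multiset K') (w : K' → ℚ),
        (m.map (fun e => (w e - κ) * (w e - κ))).sum =
        ((m.map w).map (fun x => (x - κ) * (x - κ))).sum := by
      intro K' _ m w
      rw [Multiset.map_map]
      rfl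
    rw [mom, mom, h1 _ (WI j ι g.crys.val).w, h1 _ g.crys.W.w,
      map_w g j ι hi]
  have hμ : (WI j ι g.crys.val).w F.μ / 2 = g.crys.W.w g.crys.F.μ / 2 := by
    have h1 := mean_two (F := F) (W := WI j ι g.crys.val) (U_frob g j ι g.crys.val hd)
    have h2 := mean_two (F := g.crys.F) (W := g.crys.W) (g.crys.root_U 2)
    have h3 := map_w g j ι hd
    have h4 : Multiset.card (en (F.φ 2)).charpoly.roots =
        Multiset.card (en (g.crys.F.φ 2)).charpoly.roots := by
      have := congrArg Multiset.card h3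
      rwa [Multiset.card_map, Multiset.card_map] at this
    have h5 : (Multiset.card (en (F.φ 2)).charpoly.roots : ℚ) ≠ 0 := by
      have h6 := X.dim3
      rw [← LinearMap.charpoly_natDegree (en (F.φ 2)),
        (IsAlgClosed.splits _).natDegree_eq_card_roots] at h6
      have : 0 < Multiset.card (en (F.φ 2)).charpoly.roots := by omega
      exact_mod_cast this.ne'
    have h7 := congrArg Multiset.sum h3
    rw [h1, h2, ← h4] at h7
    exact mul_right_cancel₀ h5 h7
  have h1 := (total_mom (F := F) (W := WI j ι g.crys.val) hd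
    (fun i hi => U_frob g j ι g.crys.val hi) (fun i => (i : ℚ) / 2)).1 (by
      rw [hμ, hmom 2 hd, Finset.sum_congr rfl fun i hi =>
        hmom i (Nat.lt_succ_iff.1 (Finset.mem_range.1 hi)) ((i : ℚ) / 2)]
      exact (total_mom (F := g.crys.F) (W := g.crys.W) hd
        (fun i _ => g.crys.root_U i)
        (fun i => (i : ℚ) / 2)).2 fun i hi => g.crys.nil hi)
  exact h1 i hi

include hd g in
/-- The eigenvalues of a good Frobenius on the commutant are roots of unity of bounded order. -/
lemma good_eig {i : ℕ} (hi : i ≤ d) {a : Module.End Ω (X.H i)} (ha : a ∈ cen X i)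
    (ha0 : a ≠ 0) {t : Ω} (hat : a ∈ (adE (F.φ i)).maxGenEigenspace t) :
    t ^ (2 * (finrank Ω (X.H i)) ^ 2).factorial = 1 := by
  obtain ⟨j⟩ : Nonempty (QQ →+* Ω) := ⟨(IsAlgClosed.lift : QQ →ₐ[ℚ] Ω).toRingHom⟩
  have hp := g.prime
  -- eigenvalues `e` and `t e`
  have hex : ∃ e, ∃ x ∈ (en (F.φ i)).maxGenEigenspace e, a x ≠ 0 := by
    by_contra hcon
    push Not at hcon
    exact ha0 (ext_gen (en (F.φ i)) fun e x hx => by
      rw [hcon e x hx, LinearMap.zero_apply])
  obtain ⟨e, x, hx, hax⟩ := hex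
  have h1 := conj_gen hat hx
  have hx0 : x ≠ 0 := fun h => hax (by rw [h, map_zero])
  have he : e ∈ (en (F.φ i)).charpoly.roots := ne_bot_iff.1 fun h => hx0 (by
    rw [h, Submodule.mem_bot] at hx; exact hx)
  have hte : t * e ∈ (en (F.φ i)).charpoly.roots := ne_bot_iff.1 fun h => hax (by
    rw [h, Submodule.mem_bot] at h1; exact h1)
  have he0 := root_ne he
  rw [roots_frob g j hi] at he hte
  obtain ⟨y, hy, hye⟩ := Multiset.mem_map.1 he
  obtain ⟨y', hy', hye'⟩ := Multiset.mem_map.1 hte
  have hy0 : y ≠ 0 := fun h => he0 (by rw [← hye, h, map_zero])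
  have hjt : j (y' / y) = t := by
    rw [map_div₀, hye, hye', mul_div_assoc, div_self he0, mul_one]
  have hp0 : (r : QQ) ≠ 0 := by exact_mod_cast hp.ne_zero
  have hrec := t_rec QQ r i hp.pos (g.poly i) (g.weilPoly i hi).1 (g.weilPoly i hi).2 y hy
  have hprod : (({y', (r : QQ) ^ i / y} : Multiset QQ).prod) / (r : QQ) ^ i = y' / y := by
    rw [Multiset.insert_eq_cons, Multiset.prod_cons, Multiset.prod_singleton]
    field_simp
  have hT := fun ι => good_nil hd g j ι hi
  have hval : ∀ ι : QQ →+* g.crys.C, 0 ≤ g.crys.val (ι (y' / y)) := by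
    intro ι
    set W := WI j ι g.crys.val with hW
    have h3 := T_ad (W := W) (U_frob g j ι _ hd) (U_frob g j ι _ hi)
      ((i : ℚ) / 2) ha hat
    have h4 := ad_nil (hT ι) ha0 h3
    have h5 : W.w t = 0 := by
      have : ((W.w t : ℚ) : Ω) = 0 := h4
      exact_mod_cast this
    rw [← hjt, hW, WI_w] at h5
    by_cases h0 : ι (y' / y) = 0
    · rw [h0, AddValuation.map_zero]
      exact le_top
    · rw [← val_untop _ h0, h5]
      exact le_rfl
  have harith := t_arith QQ g.crys.C r hp
    g.crys.val (by rw [g.crys.norm]; exact zero_lt_one) i (g.poly i)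
    (g.weilPoly i hi).1 (g.weilPoly i hi).2 {y', (r : QQ) ^ i / y}
    (by
      intro z hz
      rw [Multiset.insert_eq_cons, Multiset.mem_cons, Multiset.mem_singleton] at hz
      rcases hz with rfl | rfl
      · exact hy'
      · exact hrec) i (by simp [mul_comm]) (by rw [hprod]; exact hval)
  rw [hprod] at harith
  have hdeg : (g.poly i).natDegree = finrank Ω (X.H i) := by
    have h6 := LinearMap.charpoly_natDegree (en (F.φ i))
    rw [g.frobPoly i hi, natDegree_map_eq_of_injective (RingHom.injective_int _)] at h6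
    exact h6
  have hcard : Multiset.card ({y', (r : QQ) ^ i / y} : Multiset QQ) = 2 := by
    rw [Multiset.insert_eq_cons, Multiset.card_cons, Multiset.card_singleton]
  rw [hdeg, hcard] at harith
  rw [← hjt, ← map_pow, harith, map_one]

/-- The exponent of the roots of unity for the determinants. -/
noncomputable def expo2 (X : Cohomology Ω d c) (i n : ℕ) : ℕ :=
  (2 * (finrank Ω (X.H i)) ^ (n + n)).factorial

omit [CharZero Ω] [IsAlgClosed Ω] in
lemma expo2_pos (i n : ℕ) : 0 < expo2 X i n := Nat.factorial_pos _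

include hd g in
/-- Determinants of good Frobenius elements on the images of the idempotents in the commutant. -/
lemma good_det {i : ℕ} (hi : i ≤ d)
    {z : Module.End Ω (X.H i)} (hz : z ∈ cen X i) (hzz : z * z = z)
    (hzφ : Commute (en (F.φ i)) z) {n : ℕ} (hn : LinearMap.trace Ω _ z = n) :
    LinearMap.det (en (F.φ i) * z + (1 - z)) ^ (4 * expo2 X i n) =
      F.μ ^ (i * n * expo2 X i n) := by
  obtain ⟨j⟩ : Nonempty (QQ →+* Ω) := ⟨(IsAlgClosed.lift : QQ →ₐ[ℚ] Ω).toRingHom⟩
  have hp := g.prime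
  obtain ⟨s, hs, hcard, hdet, htr⟩ := t_detp Ω _ _ z hzφ hzz
  have hcn : Multiset.card s = n := by
    rw [hn] at hcard
    exact_mod_cast hcard.symm
  -- `s` comes from algebraic numbers
  have hs' : ∃ s' : Multiset QQ, s = s'.map j ∧
      ∀ y ∈ s', y ∈ ((g.poly i).map (Int.castRingHom QQ)).roots := by
    rw [roots_frob g j hi] at hs
    clear hcard hdet htr hcn
    induction s using Multiset.induction_on with
    | empty => exact ⟨0, rfl, by simp⟩
    | cons a s ih =>
      obtain ⟨s', h1, h2⟩ := ih fun e he => hs e (Multiset.mem_cons_of_mem he)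
      obtain ⟨y, hy, hya⟩ := Multiset.mem_map.1 (hs a (Multiset.mem_cons_self a s))
      refine ⟨y ::ₘ s', by rw [Multiset.map_cons, hya, h1], fun x hx => ?_⟩
      rcases Multiset.mem_cons.1 hx with rfl | hx
      · exact hy
      · exact h2 x hx
  obtain ⟨s', hss', hs'⟩ := hs'
  have hcn' : Multiset.card s' = n := by
    rw [hss', Multiset.card_map] at hcn
    exact hcn
  have hjprod : j s'.prod = s.prod := by rw [hss', map_multiset_prod]
  have hp0 : (r : QQ) ≠ 0 := by exact_mod_cast hp.ne_zero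
  have hprod : (s' + s').prod = s'.prod * s'.prod := Multiset.prod_add _ _
  -- valuations
  have hval : ∀ ι : QQ →+* g.crys.C, 0 ≤ g.crys.val
      (ι ((s' + s').prod / (r : QQ) ^ (i * n))) := by
    intro ι
    set W := WI j ι g.crys.val with hW
    have hU1 : W.U 1 := ⟨1, one_ne_zero, map_one j⟩
    have hUs : ∀ e ∈ s, W.U e := fun e he => U_frob g j ι _ hi e (hs e he)
    have h1 := htr W.k
    have hT := good_nil hd g j ι hi
    have h2 : Commute (F.T W i (i / 2)) z := by
      rw [T_eq]
      refine Commute.sub_left (Commute.sub_left (fop_comm hzφ.symm _).symm ?_) ?_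
      · exact (Commute.one_left z).smul_left _
      · exact hz _ (skew_S2 (U_frob g j ι _ hd))
    rw [fop_split F W i ((i : ℚ) / 2), add_mul, add_mul, map_add, map_add,
      tr_nil (Commute.isNilpotent_mul_right h2 hT),
      tr_rho_mul (skew_S2 (U_frob g j ι _ hd)) (fun B hB => hz B hB),
      smul_mul_assoc, one_mul, map_smul, hn, smul_eq_mul, add_zero, add_zero] at h1
    have h3 : (s.map W.k).sum = (((s.map W.w).sum : ℚ) : Ω) := cast_sum_map _ _
    rw [h3] at h1
    have h4 : (i : ℚ) / 2 * n = (s.map W.w).sum := by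
      have : (((i : ℚ) / 2 * n : ℚ) : Ω) = (((s.map W.w).sum : ℚ) : Ω) := by
        rw [← h1, Rat.cast_mul, Rat.cast_natCast]
      exact Rat.cast_injective this
    have h5 := w_prod W hU1 hUs
    have hUp : W.U (r : Ω) := ⟨(r : QQ), hp0, map_natCast j _⟩
    have h6 := w_pow W hU1 hUp (i * n)
    have h7 : W.U (s.prod * s.prod) ∧ W.w (s.prod * s.prod) = W.w s.prod + W.w s.prod :=
      ⟨W.mul _ _ h5.1 h5.1, W.w_mul _ _ h5.1 h5.1⟩
    have h8 := w_div W hU1 h7.1 h6.1
    have h9 : W.w (r : Ω) = 1 := by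
      have h10 := WI_w j ι g.crys.val (r : QQ)
      rw [map_natCast, map_natCast, g.crys.norm] at h10
      exact h10
    have h10 : W.w (s.prod * s.prod / (r : Ω) ^ (i * n)) = 0 := by
      rw [h8.2, h7.2, h6.2, h9, h5.2, ← h4]
      push_cast
      ring
    have h11 : j ((s' + s').prod / (r : QQ) ^ (i * n)) =
        s.prod * s.prod / (r : Ω) ^ (i * n) := by
      rw [map_div₀, hprod, map_mul, hjprod, map_pow, map_natCast]
    rw [← h11, hW, WI_w] at h10
    by_cases h0 : ι ((s' + s').prod / (r : QQ) ^ (i * n)) = 0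
    · rw [h0, AddValuation.map_zero]
      exact le_top
    · rw [← val_untop _ h0, h10]
      exact le_rfl
  have harith := t_arith QQ g.crys.C r hp
    g.crys.val (by rw [g.crys.norm]; exact zero_lt_one) i (g.poly i)
    (g.weilPoly i hi).1 (g.weilPoly i hi).2 (s' + s')
    (fun y hy => by
      rcases Multiset.mem_add.1 hy with h | h
      · exact hs' y h
      · exact hs' y h) (i * n)
    (by rw [Multiset.card_add, hcn']; ring) hval
  have hdeg : (g.poly i).natDegree = finrank Ω (X.H i) := by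
    have h6 := LinearMap.charpoly_natDegree (en (F.φ i))
    rw [g.frobPoly i hi, natDegree_map_eq_of_injective (RingHom.injective_int _)] at h6
    exact h6
  rw [hdeg, Multiset.card_add, hcn'] at harith
  have h1 : (s.prod * s.prod / (r : Ω) ^ (i * n)) ^ (expo2 X i n) = 1 := by
    have h11 : j ((s' + s').prod / (r : QQ) ^ (i * n)) =
        s.prod * s.prod / (r : Ω) ^ (i * n) := by
      rw [map_div₀, hprod, map_mul, hjprod, map_pow, map_natCast]
    rw [← h11, ← map_pow]
    exact (congrArg j harith).trans (map_one j)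
  have hpΩ : ((r : Ω) ^ (i * n)) ^ (expo2 X i n) ≠ 0 := by
    refine pow_ne_zero _ (pow_ne_zero _ ?_)
    exact_mod_cast hp.ne_zero
  rw [div_pow, div_eq_one_iff_eq hpΩ] at h1
  rw [hdet, g.mult]
  have h2 : s.prod ^ (4 * expo2 X i n) = ((s.prod * s.prod) ^ expo2 X i n) ^ 2 := by ring
  rw [h2, h1]
  ring

end good

end Pool.Agent.J4H44.PM
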