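import Pool.Agent.J4H44.PM.A5
import Pool.Agent.N184.HK.P_WSP
import Pool.Agent.N184.HK.P_WTB
import Pool.Agent.N184.HK.P_FOPE
import Pool.Agent.N184.HK.P_FRM
import Pool.Agent.N184.HK.P_TOM
import Pool.Agent.N184.HK.P_SL2A
import Pool.Agent.N184.HK.P_SL2B

/-!
# Purity for the geometric Frobenius element (adapted from `Pool.Agent.N184.HK.W7`)
-/

set_option autoImplicit false

namespace Pool.Agent.J4H44.PM

open Module Module.End Polynomial Pool.Agent.N184.HK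
open Pool.Agent.Y143 (IsWeilNumber IsMWPure IsMonodromyFiltration)
open scoped Classical

section

variable {Ω V : Type} [Field Ω] [CharZero Ω] [IsAlgClosed Ω] [AddCommGroup V] [Module Ω V]
  [FiniteDimensional Ω V]

/-- The eigenspaces of the centred weight operator are the parts of a given weight. -/
lemma WS_eq {q : ℕ} {Φ : Module.End Ω V}
    (hΦ : ∀ e ∈ Φ.charpoly.roots, ∃ w : ℤ, IsWeilNumber q w e) {W : Wt Ω}
    (hWw : ∀ (w : ℤ) (x : Ω), IsWeilNumber q w x → W.w x = (w : ℚ)) (κ j : ℤ) :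
    (fop Φ (fun e => ((W.w e - κ : ℚ) : Ω))).eigenspace (j : Ω) = WS q Φ (κ + j) := by
  rw [(t_fope Ω V Φ _).1, WS]
  apply le_antisymm
  · refine iSup₂_le fun e he => ?_
    by_cases h0 : Φ.maxGenEigenspace e = ⊥
    · rw [h0]; exact bot_le
    obtain ⟨w, hw⟩ := hΦ e (ne_bot_iff.1 h0)
    have h1 : ((W.w e - κ : ℚ) : Ω) = (j : Ω) := he
    rw [hWw w e hw] at h1
    have h2 : (w : ℚ) - κ = j := by
      have : (((w : ℚ) - κ : ℚ) : Ω) = ((j : ℚ) : Ω) := by rw [h1, Rat.cast_intCast]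
      exact Rat.cast_injective this
    have h3 : w = κ + j := by
      have : (w : ℚ) = ((κ + j : ℤ) : ℚ) := by push_cast; linarith
      exact_mod_cast this
    exact le_iSup₂_of_le e (show e ∈ {e : Ω | IsWeilNumber q (κ + j) e} from h3 ▸ hw) le_rfl
  · refine iSup₂_le fun e he => ?_
    have h1 := hWw _ e he
    refine le_iSup₂_of_le e (show ((W.w e - κ : ℚ) : Ω) = (j : Ω) from ?_) le_rfl
    rw [h1]
    push_cast
    ring

end

section

variable {Ω : Type} [Field Ω] [CharZero Ω] [IsAlgClosed Ω] [TopologicalSpace Ω]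
  [IsTopologicalRing Ω] [T2Space Ω] {E : HKFamily Ω} {p h : ℕ} (L : WeilDeligne E p h)

/-- Purity for the geometric Frobenius element. -/
theorem pure_frob {i : ℕ} (hi : i ≤ E.d) :
    IsMWPure (p ^ h) i (en ((L.G L.frob).φ i)) (L.N i) := by
  have hq : 1 < p ^ h := one_lt_q L
  obtain ⟨W, hWU, hWw⟩ := t_wtb Ω (p ^ h) hq
  have hq0 : ((p ^ h : ℕ) : Ω) ≠ 0 := by exact_mod_cast hq.ne_bot
  have hqW : IsWeilNumber (p ^ h) 2 ((p ^ h : ℕ) : Ω) := by
    refine ⟨isAlgebraic_natCast _, fun y hy => ?_⟩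
    have h7 : minpoly ℚ ((p ^ h : ℕ) : Ω) =
        Polynomial.X - C ((p ^ h : ℕ) : ℚ) := by
      have := minpoly.eq_X_sub_C Ω ((p ^ h : ℕ) : ℚ)
      rw [map_natCast] at this
      exact this
    rw [h7] at hy
    simp only [map_sub, aeval_X, aeval_C, sub_eq_zero] at hy
    rw [hy]
    simp
  have hU1 : W.U 1 := (hWU 1).2 ⟨0, Pool.Agent.Y143.IsWeilNumber.one _⟩
  have hUq : W.U ((p ^ h : ℕ) : Ω) := (hWU _).2 ⟨2, hqW⟩
  have hwq : W.w ((p ^ h : ℕ) : Ω) = 2 := by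
    have := hWw 2 _ hqW
    rw [this]; norm_num
  have hwμ : W.w (L.G L.frob).μ / 2 = 2 := by
    rw [mu_frob, (w_pow W hU1 hUq 2).2, hwq]; norm_num
  have hwinv : W.k ((p ^ h : ℕ) : Ω)⁻¹ = -2 := by
    have h1 := W.w_mul _ _ hUq (W.inv _ hUq)
    rw [mul_inv_cancel₀ hq0, w_one W hU1, hwq] at h1
    have h2 : W.w ((p ^ h : ℕ) : Ω)⁻¹ = -2 := by linarith
    rw [Wt.k, h2]; norm_num
  -- the grading of `H²`
  set D := (L.G L.frob).S2 W with hD
  have hDskew : Skew E.X.q D := skew_S2 (U_bad L hWU E.two_le)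
  have hDfop : D = fop (en ((L.G L.frob).φ 2)) (fun e => ((W.w e - (2 : ℤ) : ℚ) : Ω)) := by
    have : (fun e => ((W.w e - (2 : ℤ) : ℚ) : Ω)) = fun e => W.k e - ((2 : ℚ) : Ω) := by
      ext e; rw [Rat.cast_sub]; rfl
    rw [this, fop_sub, fop_const, hD, Cohomology.Auto.S2, hwμ]
  have hN2 : L.N 2 ∈ (adE ((L.G L.frob).φ 2)).maxGenEigenspace ((p ^ h : ℕ) : Ω)⁻¹ := by
    rw [Module.End.mem_maxGenEigenspace]
    refine ⟨1, ?_⟩
    rw [pow_one, LinearMap.sub_apply, adE_twist _ hq0 (twist_frob L E.two_le)]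
    exact sub_self _
  have hDN : D * L.N 2 - L.N 2 * D = -(2 : Ω) • L.N 2 := by
    have h1 := comm_fop W (U_bad L hWU E.two_le) hN2
    rw [hwinv] at h1
    rw [← h1, hD, Cohomology.Auto.S2, sub_mul, mul_sub, smul_mul_assoc, mul_smul_comm, one_mul,
      mul_one]
    abel
  have hDtop : (⨆ j : ℤ, D.eigenspace (j : Ω)) = ⊤ := by
    rw [hDfop]
    refine (t_fope Ω (E.X.H 2) _ _).2.2 fun e he => ?_
    obtain ⟨w, hw⟩ := weights' L E.two_le e he
    refine ⟨w - 2, ?_⟩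
    rw [hWw w e hw]
    push_cast
    ring
  have hW2 : ∀ j : ℤ, D.eigenspace (j : Ω) =
      WS (p ^ h) (en ((L.G L.frob).φ 2)) (2 + j) := fun j => by
    rw [hDfop]
    exact WS_eq (weights' L E.two_le) hWw 2 j
  have hfrm := t_frm Ω (E.X.H 2) _ hq 2 _ (L.N 2) (weights' L E.two_le)
    (twist_frob L E.two_le) L.mw_two
  have hbij : ∀ j : ℕ, Set.BijOn (⇑(L.N 2 ^ j)) (D.eigenspace (j : Ω) : Set (E.X.H 2))
      (D.eigenspace (-(j : Ω)) : Set (E.X.H 2)) := by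
    intro j
    have h1 := hW2 (j : ℤ)
    have h2 := hW2 (-(j : ℤ))
    rw [Int.cast_natCast] at h1
    rw [Int.cast_neg, Int.cast_natCast, ← sub_eq_add_neg] at h2
    rw [h1, h2]
    exact hfrm j
  obtain ⟨Y, hY, hDY, hYN⟩ := t_sl2a Ω (E.X.H 2) E.X.q E.X.symm E.X.nondeg D (L.N 2)
    hDskew L.skew hDN hDtop hbij
  -- the representation on `H^i`
  have b1 : E.X.ρ i D * E.X.ρ i Y - E.X.ρ i Y * E.X.ρ i D = (2 : Ω) • E.X.ρ i Y := by
    rw [← E.X.bracket i D Y hDskew hY, hDY, map_smul]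
  have b2 : E.X.ρ i D * L.N i - L.N i * E.X.ρ i D = -(2 : Ω) • L.N i := by
    rw [N_eq L hi, ← E.X.bracket i D _ hDskew L.skew, hDN, map_smul]
  have b3 : E.X.ρ i Y * L.N i - L.N i * E.X.ρ i Y = E.X.ρ i D := by
    rw [N_eq L hi, ← E.X.bracket i Y _ hY L.skew, hYN]
  obtain ⟨-, hB⟩ := t_sl2b Ω (E.X.H i) _ _ _ b1 b2 b3
  have hT := T_bad_nil L hWU hWw hi
  have hTc : Commute (E.X.ρ i D) ((L.G L.frob).T W i i) :=
    T_comm (U_bad L hWU E.two_le) (U_bad L hWU hi) _ hDskew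
  have hsum : E.X.ρ i D + (L.G L.frob).T W i i =
      fop (en ((L.G L.frob).φ i)) (fun e => ((W.w e - ((i : ℤ) : ℚ) : ℚ) : Ω)) := by
    rw [Cohomology.Auto.T, hD]
    simp only [Int.cast_natCast]
    abel
  have hWi : ∀ j : ℤ, (E.X.ρ i D).maxGenEigenspace (j : Ω) =
      WS (p ^ h) (en ((L.G L.frob).φ i)) ((i : ℤ) + j) := fun j => by
    rw [← t_wsp Ω (E.X.H i) _ _ hTc hT, hsum, (t_fope Ω (E.X.H i) _ _).2.1]
    exact WS_eq (weights' L hi) hWw (i : ℤ) j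
  refine t_tom Ω (E.X.H i) _ hq i _ (L.N i) (weights' L hi) (twist_frob L hi) fun j => ?_
  have h1 := hWi (j : ℤ)
  have h2 := hWi (-(j : ℤ))
  rw [Int.cast_natCast] at h1
  rw [Int.cast_neg, Int.cast_natCast, ← sub_eq_add_neg] at h2
  rw [← h1, ← h2]
  exact hB j

end

end Pool.Agent.J4H44.PM
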