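import Pool.Agent.J4H44.PM.A6
import Pool.Agent.Y143.Mon

/-!
# All elements of the Weil group
-/

set_option autoImplicit false

namespace Pool.Agent.J4H44.PM

open Module Module.End Pool.Agent.N184.HK
open Pool.Agent.Y143 (IsWeilNumber IsMWPure IsMonodromyFiltration)

section lin

variable {Ω V : Type} [Field Ω] [AddCommGroup V] [Module Ω V]

/-- An operator has an eigenvalue on a non-zero graded piece. -/
lemma exists_eig [IsAlgClosed Ω] [FiniteDimensional Ω V] {B : Module.End Ω V}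
    {P Q : Submodule Ω V} (hP : ∀ x ∈ P, B x ∈ P) (hQ : ∀ x ∈ Q, B x ∈ Q) {x : V} (hx : x ∈ P)
    (hx' : x ∉ Q) : ∃ (e : Ω) (y : V), y ∈ P ∧ y ∉ Q ∧ B y - e • y ∈ Q := by
  let Bq : Module.End Ω (V ⧸ Q) := Q.mapQ Q B hQ
  have hst : ∀ w ∈ P.map Q.mkQ, Bq w ∈ P.map Q.mkQ := by
    rintro _ ⟨y, hy, rfl⟩
    exact ⟨B y, hP y hy, rfl⟩
  have hnt : Nontrivial (P.map Q.mkQ) := by
    refine ⟨⟨⟨Q.mkQ x, ⟨x, hx, rfl⟩⟩, 0, fun h => hx' ?_⟩⟩
    have h2 : Q.mkQ x = 0 := congrArg Subtype.val h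
    exact (Submodule.Quotient.mk_eq_zero Q).1 h2
  obtain ⟨e, he⟩ := Module.End.exists_eigenvalue (Bq.restrict hst)
  obtain ⟨⟨w, y, hy, rfl⟩, hw⟩ := he.exists_hasEigenvector
  have h1 : Bq (Q.mkQ y) = e • Q.mkQ y := congrArg Subtype.val hw.apply_eq_smul
  refine ⟨e, y, hy, fun h => hw.2 (Subtype.ext ((Submodule.Quotient.mk_eq_zero Q).2 h)), ?_⟩
  rw [← Submodule.Quotient.mk_eq_zero Q, Submodule.Quotient.mk_sub, Submodule.Quotient.mk_smul]
  exact sub_eq_zero.2 h1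

lemma pow_stable {B : Module.End Ω V} {Q : Submodule Ω V} (hQ : ∀ x ∈ Q, B x ∈ Q) (n : ℕ) :
    ∀ x ∈ Q, (B ^ n) x ∈ Q := by
  induction n with
  | zero => intro x hx; exact hx
  | succ n ih =>
    intro x hx
    rw [_root_.pow_succ', Module.End.mul_apply]
    exact hQ _ (ih x hx)

lemma pow_cong {B : Module.End Ω V} {Q : Submodule Ω V} (hQ : ∀ x ∈ Q, B x ∈ Q) {y : V} {e : Ω}
    (h : B y - e • y ∈ Q) (n : ℕ) : (B ^ n) y - e ^ n • y ∈ Q := by
  induction n with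
  | zero => simp
  | succ n ih =>
    have h1 : (B ^ (n + 1)) y - e ^ (n + 1) • y =
        B ((B ^ n) y - e ^ n • y) + e ^ n • (B y - e • y) := by
      rw [_root_.pow_succ', Module.End.mul_apply, map_sub, map_smul, smul_sub, smul_smul,
        ← _root_.pow_succ]
      abel
    rw [h1]
    exact Q.add_mem (hQ _ ih) (Q.smul_mem _ h)

/-- Eigenvalues on the graded pieces of operators with proportional powers. -/
lemma key_nat [CharZero Ω] [IsAlgClosed Ω] [FiniteDimensional Ω V] {A B : Module.End Ω V}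
    {P Q : Submodule Ω V} (hBP : ∀ x ∈ P, B x ∈ P) (hBQ : ∀ x ∈ Q, B x ∈ Q)
    (hAQ : ∀ x ∈ Q, A x ∈ Q) {q : ℕ} {w : ℤ}
    (hW : ∀ (α : Ω) (x : V), x ∈ P → x ∉ Q → B x - α • x ∈ Q → IsWeilNumber q w α)
    {r n : ℕ} (hAB : A ^ r = B ^ n) {α : Ω} {x : V} (hx : x ∈ P) (hx' : x ∉ Q)
    (h : A x - α • x ∈ Q) : IsWeilNumber q (n * w) (α ^ r) := by
  set β := α ^ r with hβ
  have h1 : (B ^ n) x - β • x ∈ Q := by
    rw [← hAB]
    exact pow_cong hAQ h r
  let S : Submodule Ω V := P ⊓ Q.comap (B ^ n - β • (1 : Module.End Ω V))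
  have hS : ∀ y ∈ S, B y ∈ S := by
    rintro y ⟨hy1, hy2⟩
    refine ⟨hBP y hy1, ?_⟩
    change (B ^ n - β • (1 : Module.End Ω V)) (B y) ∈ Q
    have h2 : (B ^ n - β • (1 : Module.End Ω V)) (B y) =
        B ((B ^ n - β • (1 : Module.End Ω V)) y) := by
      have h3 : Commute (B ^ n - β • (1 : Module.End Ω V)) B :=
        ((Commute.refl B).pow_left n).sub_left ((Commute.one_left B).smul_left β)
      exact congrArg (fun f : Module.End Ω V => f y) h3.eq
    rw [h2]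
    exact hBQ _ hy2
  obtain ⟨e, y, ⟨hy1, hy2⟩, hy3, hy4⟩ := exists_eig hS hBQ (x := x) ⟨hx, h1⟩ hx'
  have h2 := hW e y hy1 hy3 hy4
  have h3 := pow_cong hBQ hy4 n
  have h4 : (B ^ n) y - β • y ∈ Q := hy2
  have h5 : (e ^ n - β) • y ∈ Q := by
    have h6 : (e ^ n - β) • y = ((B ^ n) y - β • y) - ((B ^ n) y - e ^ n • y) := by
      rw [sub_smul]
      abel
    rw [h6]
    exact Q.sub_mem h4 h3
  have h6 : e ^ n = β := by
    by_contra hne
    refine hy3 ?_
    have h7 := Q.smul_mem (e ^ n - β)⁻¹ h5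
    rwa [smul_smul, inv_mul_cancel₀ (sub_ne_zero.2 hne), one_smul] at h7
  rw [← h6]
  exact h2.pow n

end lin

lemma grp_pow {G : Type} [Group G] {x y : G} {k n r : ℕ}
    (h : x ^ n * (y ^ (k * n))⁻¹ = x ^ (n + r) * (y ^ (k * (n + r)))⁻¹) : x ^ r = y ^ (k * r) := by
  rw [mul_add, pow_add, pow_add, mul_inv_rev, mul_assoc, mul_left_cancel_iff, ← mul_assoc,
    right_eq_mul] at h
  exact mul_inv_eq_one.1 h

section

variable {Ω : Type} [Field Ω] [CharZero Ω] [TopologicalSpace Ω] {E : HKFamily Ω} {p h : ℕ}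
  (L : WeilDeligne E p h)

/-- The action of the Weil group on `H^i`. -/
def actW (i : ℕ) : L.W →* (E.X.H i ≃ₗ[Ω] E.X.H i) :=
  MonoidHom.mk' (fun g => (L.G g).φ i) fun g g' => L.mul g g' i

/-- The valuation. -/
def valW : L.W →* Multiplicative ℤ :=
  MonoidHom.mk' (fun g => Multiplicative.ofAdd (L.v g)) fun g g' => by
    rw [L.v_mul]
    rfl

lemma v_pow (g : L.W) (n : ℕ) : L.v (g ^ n) = n * L.v g := by
  have h1 := map_pow (valW L) g n
  have h2 := congrArg Multiplicative.toAdd h1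
  rw [toAdd_pow] at h2
  change L.v (g ^ n) = n • L.v g at h2
  rw [h2, nsmul_eq_mul]

lemma v_inv (g : L.W) : L.v g⁻¹ = -L.v g := congrArg Multiplicative.toAdd (map_inv (valW L) g)

lemma en_pow {V : Type} [AddCommGroup V] [Module Ω V] (f : V ≃ₗ[Ω] V) (n : ℕ) :
    en (f ^ n) = (en f) ^ n := by
  induction n with
  | zero => rfl
  | succ n ih =>
    rw [_root_.pow_succ, _root_.pow_succ, ← ih]
    rfl

/-- A power of `g` acts as a power of the geometric Frobenius element. -/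
lemma pow_eq {i : ℕ} (hi : i ≤ E.d) {g : L.W} {k : ℕ} (hg : L.v g = k * h) :
    ∃ r : ℕ, 0 < r ∧ (en ((L.G g).φ i)) ^ r = (en ((L.G L.frob).φ i)) ^ (k * r) := by
  have hm : Set.MapsTo (fun n : ℕ => actW L i (g ^ n * (L.frob ^ (k * n))⁻¹)) Set.univ
      {f : E.X.H i ≃ₗ[Ω] E.X.H i | ∃ τ, L.v τ = 0 ∧ f = (L.G τ).φ i} := by
    intro n _
    refine ⟨g ^ n * (L.frob ^ (k * n))⁻¹, ?_, rfl⟩
    rw [L.v_mul, v_inv, v_pow, v_pow, L.v_frob, hg]
    push_cast
    ring
  obtain ⟨n, -, n', -, hnn, heq⟩ :=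
    Set.infinite_univ.exists_lt_map_eq_of_mapsTo hm (L.inertia i hi)
  obtain ⟨r, rfl⟩ := Nat.exists_eq_add_of_lt hnn
  refine ⟨r + 1, Nat.succ_pos r, ?_⟩
  simp only [map_mul, map_inv, map_pow] at heq
  have h1 := grp_pow (r := r + 1) heq
  have h2 := congrArg en h1
  rw [en_pow, en_pow] at h2
  exact h2

end

section

variable {Ω : Type} [Field Ω] [CharZero Ω] [IsAlgClosed Ω] [TopologicalSpace Ω]
  [IsTopologicalRing Ω] [T2Space Ω] {E : HKFamily Ω} {p h : ℕ} (L : WeilDeligne E p h)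

/-- **The `p`-adic monodromy-weight conjecture for projective hyperkähler varieties.** -/
theorem monodromyWeight {i : ℕ} (hi : i ≤ E.d) : L.MonodromyWeight i := by
  obtain ⟨M₀, hM₀, -, hW⟩ := pure_frob L hi
  refine ⟨⟨M₀, hM₀⟩, fun M hM g s => ?_⟩
  have hp0 : (p : Ω) ≠ 0 := by exact_mod_cast L.prime.ne_zero
  have heq : ∀ s, M s = M₀ s := by
    intro s
    apply le_antisymm
    · intro x hx
      exact hM.on.functorial hM₀.on LinearMap.id (fun x _ => trivial) one_ne_zero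
        (fun x _ => by simp) s hx
    · intro x hx
      exact hM₀.on.functorial hM.on LinearMap.id (fun x _ => trivial) one_ne_zero
        (fun x _ => by simp) s hx
  have hst : ∀ (g : L.W) (s : ℤ), ∀ x ∈ M s, en ((L.G g).φ i) x ∈ M s := fun g s x hx =>
    hM.on.functorial hM.on (en ((L.G g).φ i)) (fun x _ => trivial)
      (zpow_ne_zero (L.v g) hp0) (fun x _ => L.twist g i hi x) s hx
  refine ⟨hst g s, fun α ⟨x, hx, hx', hα⟩ => ?_⟩
  -- elements with non-negative valuation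
  have key : ∀ (g : L.W) (k : ℕ), L.v g = k * h → ∀ (α : Ω) (x : E.X.H i), x ∈ M s →
      x ∉ M (s - 1) → en ((L.G g).φ i) x - α • x ∈ M (s - 1) →
      IsWeilNumber p ((i + s) * L.v g) α := by
    intro g k hg α x hx hx' hα
    obtain ⟨r, hr, hAB⟩ := pow_eq L hi hg
    have h1 := key_nat (hst L.frob s) (hst L.frob (s - 1)) (hst g (s - 1)) (q := p ^ h)
      (w := s + i) (fun α x hx hx' hα => hW s α x (heq s ▸ hx) (heq (s - 1) ▸ hx')
        (heq (s - 1) ▸ hα)) hAB hx hx' hα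
    have h2 : ((k * r : ℕ) : ℤ) * (s + i) = r * (k * (s + i)) := by
      push_cast
      ring
    rw [h2] at h1
    have h3 := (h1.of_pow hr).of_pow_base
    have h4 : (h : ℤ) * (k * (s + i)) = (i + s) * L.v g := by
      rw [hg]
      ring
    rwa [h4] at h3
  change IsWeilNumber p ((i + s) * L.v g) α
  obtain ⟨k, hk⟩ := L.dvd g
  obtain ⟨m, rfl | rfl⟩ := k.eq_nat_or_neg
  · exact key g m (by rw [hk, mul_comm]) α x hx hx' hα
  · -- elements with negative valuation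
    have hinv : ∀ y, en ((L.G g⁻¹).φ i) (en ((L.G g).φ i) y) = y := by
      intro y
      have h1 : actW L i (g⁻¹ * g) = 1 := by rw [inv_mul_cancel, map_one]
      rw [map_mul] at h1
      exact congrArg (fun f : E.X.H i ≃ₗ[Ω] E.X.H i => f y) h1
    have h1 := hst g⁻¹ (s - 1) _ hα
    rw [map_sub, hinv, map_smul] at h1
    have hα0 : α ≠ 0 := by
      rintro rfl
      rw [zero_smul, sub_zero] at h1
      exact hx' h1
    have h2 : en ((L.G g⁻¹).φ i) x - α⁻¹ • x ∈ M (s - 1) := by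
      have h3 : en ((L.G g⁻¹).φ i) x - α⁻¹ • x =
          (-α⁻¹) • (x - α • en ((L.G g⁻¹).φ i) x) := by
        rw [smul_sub, smul_smul, neg_mul, inv_mul_cancel₀ hα0, neg_smul, neg_smul, one_smul]
        abel
      rw [h3]
      exact Submodule.smul_mem _ _ h1
    have h3 := key g⁻¹ m (by rw [v_inv, hk]; ring) α⁻¹ x hx hx' h2
    have h4 := h3.inv
    rw [inv_inv, v_inv] at h4
    have h5 : -((i + s) * -L.v g) = (i + s) * L.v g := by ring
    rwa [h5] at h4

end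

end Pool.Agent.J4H44.PM
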