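import Pool.Agent.N184.HK.Coh
import Pool.Agent.N184.HK.Stm2
import Pool.Agent.N184.HK.Stm3

/-!
# The `p`-adic monodromy-weight conjecture for projective hyperkähler varieties: definitions
-/

set_option autoImplicit false

namespace Pool.Agent.J4H44.PM

open Module Polynomial
open Pool.Agent.Y143 (IsWeilNumber IsMWPure IsMonodromyFiltration)
open Pool.Agent.N184.HK (Cohomology Skew en fop Act Cts)

/-! ### Good reduction -/

/-- The slope `val e`, as an element of the field `C`. -/
noncomputable def slope {C : Type} [Field C] (val : AddValuation C (WithTop ℚ)) (e : C) : C :=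
  (((val e).untopD 0 : ℚ) : C)

/-- The trace of a product. -/
noncomputable def trm {K V : Type} [Field K] [AddCommGroup V] [Module K V]
    (A B : Module.End K V) : K :=
  LinearMap.trace K V (A * B)

section

variable {C : Type} [Field C] [CharZero C] [IsAlgClosed C] {d : ℕ} {c : ℚ}

/-- The Newton number of the image `W` of the idempotent `z`: the sum of the slopes of the Frobenius
on `W`. -/
noncomputable def newtonNumber {D : Cohomology C d c} (F : D.Auto)
    (val : AddValuation C (WithTop ℚ)) (i : ℕ) (z : Module.End C (D.H i)) : C :=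
  trm (fop (en (F.φ i)) (slope val)) z

/-- The Hodge number of the image `W` of the idempotent `z`: the sum of the `p`, each with
multiplicity `dim Gr^p W`, where `Gr^p` is the eigenspace of `ρ i J + i / 2` for the eigenvalue
`p`. -/
noncomputable def hodgeNumber (D : Cohomology C d c) (J : Module.End C (D.H 2)) (i : ℕ)
    (z : Module.End C (D.H i)) : C :=
  trm (D.ρ i J) z + ((i / 2 : ℚ) : C) * trm 1 z

/-- Weak admissibility of `H i`: for the image `W` of an idempotent `z`, stable under the Frobenius and
`so(H²)`, the Newton number of `W` is at least the Hodge number, with equality for `H i` itself. -/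
def WeaklyAdmissible {D : Cohomology C d c} (F : D.Auto) (val : AddValuation C (WithTop ℚ))
    (J : Module.End C (D.H 2)) (i : ℕ) : Prop :=
  ∀ z : Module.End C (D.H i), z * z = z → Commute z (en (F.φ i)) →
    (∀ A, Skew D.q A → Commute (D.ρ i A) z) →
    ∃ x : ℚ, 0 ≤ x ∧ newtonNumber F val i z = hodgeNumber D J i z + x ∧ (z = 1 → x = 0)

end

/-- A fibre with good reduction over the field with `r` elements, `r` a prime number: the crystalline
cohomology `D` of the reduction (over an algebraic closure `C` of the `r`-adic numbers), with the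
Frobenius `F` and the `r`-adic valuation `val`. The Hodge filtration is the filtration by the
eigenvalues of `ρ i J`, for an element `J` of `so(H²)`. The filtered module `H i` is weakly
admissible (Fontaine, Faltings). -/
structure CrysPlace (d : ℕ) (c : ℚ) (r : ℕ) where
  C : Type
  [field : Field C]
  [closed : IsAlgClosed C]
  [char : CharZero C]
  D : Cohomology C d c
  F : D.Auto
  val : AddValuation C (WithTop ℚ)
  norm : val (r : C) = 1
  J : Module.End C (D.H 2)
  skew : Skew D.q J
  adm : ∀ i ≤ d, WeaklyAdmissible F val J i

attribute [instance] CrysPlace.field CrysPlace.closed CrysPlace.char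

/-- The integral polynomials `P i`, for `i ≤ d`, are monic, and their roots have absolute value
`r ^ (i / 2)`. -/
def IsWeilPoly (r d : ℕ) (P : ℕ → ℤ[X]) : Prop :=
  ∀ i ≤ d, (P i).Monic ∧ ∀ z ∈ ((P i).map (Int.castRingHom ℂ)).roots, ‖z‖ ^ 2 = (r : ℝ) ^ i

/-- The automorphism `F` of the étale cohomology is the geometric Frobenius element of a fibre over
the field with `r` elements, `r` a prime number: it multiplies the form `q` by `r ^ 2`; its
characteristic polynomials have integral coefficients and roots of absolute value `r ^ (i / 2)`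
(Deligne); they are the characteristic polynomials of the Frobenius of the crystalline cohomology of
the fibre (Katz, Messing). -/
structure GoodFrobenius {Ω : Type} [Field Ω] {d : ℕ} {c : ℚ} {X : Cohomology Ω d c} (F : X.Auto)
    (r : ℕ) where
  prime : r.Prime
  mult : F.μ = (r : Ω) ^ 2
  poly : ℕ → ℤ[X]
  frobPoly : ∀ i ≤ d, (en (F.φ i)).charpoly = (poly i).map (Int.castRingHom Ω)
  weilPoly : IsWeilPoly r d poly
  crys : CrysPlace d c r
  crysPoly : ∀ i ≤ d, (en (crys.F.φ i)).charpoly = (poly i).map (Int.castRingHom crys.C)

/-- The `p`-adic étale cohomology of a projective hyperkähler variety `X` of dimension `d / 2` over a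
finite extension `K` of `ℚ_p` (with coefficients extended to the topological field `Ω`). The variety
is the fibre over `Spec K → S` of a smooth projective family over a connected smooth scheme `S` of
finite type over `ℤ[1 / M]`, `p ∣ M`, with fibre dimension `d / 2`; the fundamental group `Γ` of `S`
acts on the cohomology continuously, and the geometric Frobenius elements of the closed points of `S`
whose residue field has a prime number of elements are dense in `Γ` (Chebotarev's theorem). -/
structure HKFamily (Ω : Type) [Field Ω] [TopologicalSpace Ω] where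
  d : ℕ
  two_le : 2 ≤ d
  c : ℚ
  X : Cohomology Ω d c
  Γ : Type
  [grp : Group Γ]
  [top : TopologicalSpace Γ]
  [tgrp : IsTopologicalGroup Γ]
  [cpt : CompactSpace Γ]
  F : Γ → X.Auto
  mul : ∀ σ τ i, (F (σ * τ)).φ i = ((F τ).φ i).trans ((F σ).φ i)
  cont : ∀ i, Cts fun σ => en ((F σ).φ i)
  cont_μ : Continuous fun σ => (F σ).μ
  dense : ∀ O : Set Γ, IsOpen O → O.Nonempty →
    ∃ σ ∈ O, ∃ r : ℕ, Nonempty (GoodFrobenius (F σ) r)

attribute [instance] HKFamily.grp HKFamily.top HKFamily.tgrp HKFamily.cpt

/-! ### The Zariski closure -/

/-- The coordinate functions on the automorphisms of the cohomology: the scalar `μ` and the linear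
combinations of the matrix entries of `φ i`, or of the matrix entries of the inverse of `φ i`. -/
def IsCoord {Ω : Type} [Field Ω] {d : ℕ} {c : ℚ} (X : Cohomology Ω d c) (f : X.Auto → Ω) : Prop :=
  (∀ F, f F = F.μ) ∨ ∃ (i : ℕ) (L : Module.Dual Ω (Module.End Ω (X.H i))),
    (∀ F, f F = L (en (F.φ i))) ∨ ∀ F, f F = L (en (F.φ i).symm)

/-- The polynomial functions on the automorphisms of the cohomology: polynomials in the matrix entries
of the `φ i` and of their inverses and in `μ`. -/
def polyFun {Ω : Type} [Field Ω] {d : ℕ} {c : ℚ} (X : Cohomology Ω d c) :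
    Subalgebra Ω (X.Auto → Ω) :=
  Algebra.adjoin Ω {f | IsCoord X f}

/-- `F` belongs to the Zariski closure of the image of `Γ`: every polynomial function which vanishes
on the image of `Γ` vanishes at `F`. -/
def HKFamily.InClosure {Ω : Type} [Field Ω] [TopologicalSpace Ω] (E : HKFamily Ω)
    (F : E.X.Auto) : Prop :=
  ∀ f ∈ polyFun E.X, (∀ σ : E.Γ, f (E.F σ) = 0) → f F = 0

/-! ### The local data at `p` -/

section

variable {K : Type} [Field K] {V W : Type} [AddCommGroup V] [Module K V] [AddCommGroup W]
  [Module K W]

/-- The commutator of two operators. -/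
def br (A B : Module.End K V) : Module.End K V := A * B - B * A

/-- The operators `N` on `V` and `M` on `W` are compatible with the action of `so(V, q)`:
`[M, ρ A] = ρ [N, A]`. -/
def Compat (ρ : Act K V W) (q : LinearMap.BilinForm K V) (N : Module.End K V)
    (M : Module.End K W) : Prop :=
  ∀ A, Skew q A → br M (ρ A) = ρ (br N A)

/-- The relation `N Φ = q Φ N` between an element of the Weil group and the logarithm of the
monodromy. -/
def Twisted (q : K) (Φ N : Module.End K V) : Prop := ∀ x, N (Φ x) = q • Φ (N x)

/-- All eigenvalues of `Φ` are `q`-Weil numbers of some integral weight. -/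
def Weighted [CharZero K] (q : ℕ) (Φ : Module.End K V) : Prop :=
  ∀ e, Φ.HasEigenvalue e → ∃ w : ℤ, IsWeilNumber q w e

/-- `α` is an eigenvalue of `Φ` on `P / Q`. -/
def EigenvalueOn (Φ : Module.End K V) (P Q : Submodule K V) (α : K) : Prop :=
  ∃ x ∈ P, x ∉ Q ∧ Φ x - α • x ∈ Q

/-- `α` is an algebraic number all of whose complex conjugates have absolute value `a`. -/
def ConjAbs [CharZero K] (α : K) (a : ℝ) : Prop :=
  IsAlgebraic ℚ α ∧ ∀ z : ℂ, aeval z (minpoly ℚ α) = 0 → ‖z‖ = a

/-- `Φ` preserves `P`, and all eigenvalues of `Φ` on `P / Q` are algebraic numbers all of whose complex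
conjugates have absolute value `a`. -/
def PureOn [CharZero K] (Φ : Module.End K V) (P Q : Submodule K V) (a : ℝ) : Prop :=
  (∀ x ∈ P, Φ x ∈ P) ∧ ∀ α, EigenvalueOn Φ P Q α → ConjAbs α a

end

/-- The action of the Weil group `W` of a finite extension `K` of `ℚ_p` whose residue field has `p ^ h`
elements on `H_{pst,p}(X)`, for a projective hyperkähler variety `X` over `K`, after extension of scalars
to the field `Ω`; the cohomology `H_{pst,p}(X) ⊗ Ω` is identified with `H_ét(X) ⊗ Ω` (with all the tensors
fixed by the Galois group) by an isomorphism of the fibre functors `D_pst ⊗ Ω` and `ω ⊗ Ω` on the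
tensor category generated by the cohomology. The map `v : W → h ℤ` is the surjection with kernel the
inertia group, `G g` is the action of `g`, and `frob` is a geometric Frobenius element.

* The inertia group acts through a finite group.
* `G g` is an element of the Tannaka group of the cohomology, so it belongs to the Zariski closure of
  the image of the Galois group. -/
structure WeilAction {Ω : Type} [Field Ω] [TopologicalSpace Ω] (E : HKFamily Ω) (h : ℕ) where
  W : Type
  [grp : Group W]
  v : W → ℤ
  v_mul : ∀ g g', v (g * g') = v g + v g'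
  dvd : ∀ g, (h : ℤ) ∣ v g
  G : W → E.X.Auto
  mul : ∀ g g' i, (G (g * g')).φ i = ((G g').φ i).trans ((G g).φ i)
  inertia : ∀ i ≤ E.d, {f | ∃ τ, v τ = 0 ∧ f = (G τ).φ i}.Finite
  closure : ∀ g, E.InClosure (G g)
  frob : W
  v_frob : v frob = h

attribute [instance] WeilAction.grp

/-- The Weil-Deligne representation `H_{pst,p}(X)` (with scalars extended to `Ω`): the action of the
Weil group and the monodromy operator `N`.

* `g` multiplies the form `q` on `H²` by `p ^ (2 v g)` and `N g = p ^ (v g) g N`.
* `N` is a derivation of the cohomology ring, so it is skew on `H²` and compatible with the action of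
  `so(H²)`.
* The eigenvalues of a geometric Frobenius element `frob` are Weil numbers (de Jong, Mokrane, Tsuji),
  and the conjecture is known for `H²` (Mokrane, de Jong). -/
structure WeilDeligne {Ω : Type} [Field Ω] [CharZero Ω] [TopologicalSpace Ω] (E : HKFamily Ω)
    (p h : ℕ) extends WeilAction E h where
  prime : p.Prime
  pos : 0 < h
  mult : ∀ g, (G g).μ = (p : Ω) ^ (2 * v g)
  N : ∀ i, Module.End Ω (E.X.H i)
  skew : Skew E.X.q (N 2)
  compat : ∀ i ≤ E.d, Compat (E.X.ρ i) E.X.q (N 2) (N i)
  twist : ∀ g, ∀ i ≤ E.d, Twisted ((p : Ω) ^ (v g)) (en ((G g).φ i)) (N i)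
  weights : ∀ i ≤ E.d, Weighted (p ^ h) (en ((G frob).φ i))
  mw_two : IsMWPure (p ^ h) 2 (en ((G frob).φ 2)) (N 2)

/-- **The monodromy-weight conjecture for `H^i_{pst,p}(X)`.** The nilpotent operator `N` has a
monodromy filtration `M`, and each monodromy filtration `M` is stable under the Weil group, and each
eigenvalue of each `g` in the Weil group on each graded piece `M_s / M_(s-1)` is an algebraic number all
of whose complex conjugates have absolute value `p ^ ((i + s) v(g) / 2)`. -/
def WeilDeligne.MonodromyWeight {Ω : Type} [Field Ω] [CharZero Ω] [TopologicalSpace Ω]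
    {E : HKFamily Ω} {p h : ℕ} (L : WeilDeligne E p h) (i : ℕ) : Prop :=
  (∃ M, IsMonodromyFiltration (L.N i) M) ∧ ∀ M, IsMonodromyFiltration (L.N i) M →
    ∀ (g : L.W) (s : ℤ), PureOn (en ((L.G g).φ i)) (M s) (M (s - 1))
      ((p : ℝ) ^ (((i + s) * L.v g : ℤ) / 2 : ℝ))

end Pool.Agent.J4H44.PM
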